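import Mathlib

/-!
Flarbs on binary trees: sequences of `n` flarbs starting from the empty tree can need of order
`n log n` pointer changes.

The nodes carry labels: the node which is added by the `i`-th flarb (`i = 0, 1, …`) has the
label `i`.  Since a new node is the last one in the in-order of the new tree, the in-order of the
tree with `n` nodes is `0, 1, …, n - 1`.

Proof: after `n + 1` flarbs have produced the rightmost path `0, …, n`, a sequence of `n` flarbs
which starts from the empty tree is repeated with the new nodes, while each flarb moves one node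
of the old path, the rest of which is the left subtree of the node `n + 1`, to the upper path. So
the maximal costs satisfy `F (2 n + 1) ≥ 2 F n + n - 1`.
-/

namespace Pool.Agent.Results.MP_5c307f_lc.LogarithmicFlarbs

/-- Finite binary trees whose nodes are labelled by natural numbers. -/
inductive BTree
  | nil : BTree
  | node (l : BTree) (x : ℕ) (r : BTree) : BTree

namespace BTree

/-- The set of the labels of the nodes. -/
def labels : BTree → Finset ℕ
  | nil => ∅
  | node l x r => insert x (labels l ∪ labels r)

/-- The label of the root, if there is one (as a set with at most one element). -/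
def root : BTree → Finset ℕ
  | nil => ∅
  | node _ x _ => {x}

/-- The parent/child relationships: `(p, false, c)` means that `c` is the left child of `p`, and
`(p, true, c)` means that `c` is the right child of `p`. -/
def ptr : BTree → Finset (ℕ × Bool × ℕ)
  | nil => ∅
  | node l x r => (root l).image (fun y => (x, false, y)) ∪
      ((root r).image (fun y => (x, true, y)) ∪ (ptr l ∪ ptr r))

/-- `S` is an anchored subtree of `T`: a set of nodes of `T` which contains the root (if there is
one), and which contains the parent of each of its other elements. -/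
def Anchored (S : Finset ℕ) (T : BTree) : Prop :=
  S ⊆ T.labels ∧ T.root ⊆ S ∧ ∀ p b c, (p, b, c) ∈ T.ptr → c ∈ S → p ∈ S

/-- For a set `S` of nodes which is connected and contains the root: the list of the nodes
`s₁ < s₂ < …` of `S` in in-order, each of them together with the subtree hanging off `S` which
lies just before it in the in-order, and the hanging subtree after the last node. -/
def spine (S : Finset ℕ) : BTree → List (BTree × ℕ) × BTree
  | nil => ([], nil)
  | node l x r =>
      if x ∈ S then ((spine S l).1 ++ ((spine S l).2, x) :: (spine S r).1, (spine S r).2)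
      else ([], node l x r)

/-- The rightmost path with given nodes and left subtrees, and with a given tree as the right
subtree of its last node. -/
def rightPath : List (BTree × ℕ) → BTree → BTree
  | [], u => u
  | (t, x) :: b, u => node t x (rightPath b u)

/-- The flarb of `S` of the tree `T`: a new root `n` with left subtree `T` and no right child is
added, and then the nodes of `S ∪ {n}` are rearranged into a rightmost path; the in-order and the
subtrees hanging off `S ∪ {n}` are kept. -/
def flarb (S : Finset ℕ) (n : ℕ) (T : BTree) : BTree :=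
  rightPath (spine (insert n S) (node T n nil)).1 (spine (insert n S) (node T n nil)).2

/-- The number of the parent/child relationships of `T` which `T'` does not have. -/
def destroyed (T T' : BTree) : ℕ := (T.ptr \ T'.ptr).card

/-- `T 0, …, T n` is a sequence of `n` flarbs starting from the empty tree. -/
def IsFlarbSequence (n : ℕ) (T : ℕ → BTree) : Prop :=
  T 0 = nil ∧ ∀ i < n, ∃ S, Anchored S (T i) ∧ T (i + 1) = flarb S i (T i)

/-! ### Basic facts -/

lemma root_subset (T : BTree) : T.root ⊆ T.labels := by
  cases T with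
  | nil => simp [root]
  | node l x r => simp [root, labels]

/-- The inductive form of connectedness. -/
def Conn (S : Finset ℕ) : BTree → Prop
  | nil => True
  | node l x r => (x ∈ S ∧ Conn S l ∧ Conn S r) ∨ ∀ y ∈ labels (node l x r), y ∉ S

lemma mem_ptr_node {l r : BTree} {x p c : ℕ} {b : Bool} :
    (p, b, c) ∈ ptr (node l x r) ↔
      (p = x ∧ b = false ∧ c ∈ root l) ∨ (p = x ∧ b = true ∧ c ∈ root r) ∨
        (p, b, c) ∈ ptr l ∨ (p, b, c) ∈ ptr r := by
  simp only [ptr, Finset.mem_union, Finset.mem_image, Prod.mk.injEq]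
  constructor
  · rintro (⟨y, hy, rfl, rfl, rfl⟩ | ⟨y, hy, rfl, rfl, rfl⟩ | h)
    · exact Or.inl ⟨rfl, rfl, hy⟩
    · exact Or.inr (Or.inl ⟨rfl, rfl, hy⟩)
    · exact Or.inr (Or.inr h)
  · rintro (⟨rfl, rfl, h⟩ | ⟨rfl, rfl, h⟩ | h)
    · exact Or.inl ⟨c, h, rfl, rfl, rfl⟩
    · exact Or.inr (Or.inl ⟨c, h, rfl, rfl, rfl⟩)
    · exact Or.inr (Or.inr h)

lemma ptr_labels {T : BTree} {p c : ℕ} {b : Bool} (h : (p, b, c) ∈ ptr T) :
    p ∈ labels T ∧ c ∈ labels T := by
  induction T with
  | nil => simp [ptr] at h
  | node l x r ihl ihr =>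
    rw [mem_ptr_node] at h
    simp only [labels, Finset.mem_insert, Finset.mem_union]
    rcases h with ⟨rfl, -, h⟩ | ⟨rfl, -, h⟩ | h | h
    · exact ⟨Or.inl rfl, Or.inr (Or.inl (root_subset l h))⟩
    · exact ⟨Or.inl rfl, Or.inr (Or.inr (root_subset r h))⟩
    · exact ⟨Or.inr (Or.inl (ihl h).1), Or.inr (Or.inl (ihl h).2)⟩
    · exact ⟨Or.inr (Or.inr (ihr h).1), Or.inr (Or.inr (ihr h).2)⟩

lemma Conn.closed {S : Finset ℕ} {T : BTree} (h : Conn S T) :
    ∀ p b c, (p, b, c) ∈ T.ptr → c ∈ S → p ∈ S := by
  induction T with
  | nil => intro p b c hp; simp [ptr] at hp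
  | node l x r ihl ihr =>
    intro p b c hp hc
    rcases h with ⟨hx, hl, hr⟩ | h
    · rw [mem_ptr_node] at hp
      rcases hp with ⟨rfl, -, -⟩ | ⟨rfl, -, -⟩ | hp | hp
      · exact hx
      · exact hx
      · exact ihl hl p b c hp hc
      · exact ihr hr p b c hp hc
    · exact absurd hc (h c (ptr_labels hp).2)

/-- The strategies, with their cost. -/
inductive Run : ℕ → BTree → ℕ → Prop
  | zero : Run 0 nil 0
  | step {n : ℕ} {T : BTree} {c : ℕ} (S : Finset ℕ) (h : Run n T c) (h1 : S ⊆ T.labels)
      (h2 : T.root ⊆ S) (h3 : Conn S T) :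
      Run (n + 1) (flarb S n T) (c + destroyed T (flarb S n T))

lemma Run.exists_sequence {n : ℕ} {T : BTree} {c : ℕ} (h : Run n T c) :
    ∃ f : ℕ → BTree, IsFlarbSequence n f ∧ f n = T ∧
      ∑ i ∈ Finset.range n, destroyed (f i) (f (i + 1)) = c := by
  induction h with
  | zero => exact ⟨fun _ => nil, ⟨rfl, fun i hi => absurd hi (by omega)⟩, rfl, by simp⟩
  | @step n T c S h h1 h2 h3 ih =>
    obtain ⟨f, ⟨hf0, hf⟩, hfn, hfc⟩ := ih
    refine ⟨fun i => if i ≤ n then f i else flarb S n T, ⟨by simpa using hf0, ?_⟩, by simp, ?_⟩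
    · intro i hi
      rcases Nat.lt_succ_iff_lt_or_eq.1 hi with hi' | rfl
      · obtain ⟨S', h4, h5⟩ := hf i hi'
        refine ⟨S', ?_, ?_⟩
        · simpa [hi'.le] using h4
        · have : i + 1 ≤ n := hi'
          simpa [hi'.le, this] using h5
      · refine ⟨S, ?_, ?_⟩
        · simp only [le_refl, if_true]
          rw [hfn]
          exact ⟨h1, h2, h3.closed⟩
        · simp only [le_refl, if_true]
          rw [if_neg (by omega), hfn]
    · rw [Finset.sum_range_succ]
      congr 1
      · rw [← hfc]
        apply Finset.sum_congr rfl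
        intro i hi
        rw [Finset.mem_range] at hi
        have h4 : i + 1 ≤ n := hi
        simp [hi.le, h4]
      · simp [hfn]

/-! ### The in-order -/

/-- The in-order of the labels. -/
def inorder : BTree → List ℕ
  | nil => []
  | node l x r => inorder l ++ x :: inorder r

lemma mem_inorder {T : BTree} {y : ℕ} : y ∈ inorder T ↔ y ∈ labels T := by
  induction T with
  | nil => simp [inorder, labels]
  | node l x r ihl ihr => simp [inorder, labels, ihl, ihr]; tauto

lemma rightPath_append (a b : List (BTree × ℕ)) (u : BTree) :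
    rightPath (a ++ b) u = rightPath a (rightPath b u) := by
  induction a with
  | nil => rfl
  | cons q a ih => obtain ⟨t, x⟩ := q; simp [rightPath, ih]

lemma inorder_rightPath_append (a : List (BTree × ℕ)) (u v : BTree) :
    inorder (rightPath a u) ++ inorder v = inorder (rightPath a nil) ++ (inorder u ++ inorder v) := by
  induction a with
  | nil => simp [rightPath, inorder]
  | cons q a ih =>
    obtain ⟨t, x⟩ := q
    simp only [rightPath, inorder, List.append_assoc, List.cons_append, ih]

lemma inorder_rightPath (a : List (BTree × ℕ)) (u : BTree) :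
    inorder (rightPath a u) = inorder (rightPath a nil) ++ inorder u := by
  have := inorder_rightPath_append a u nil
  simpa [inorder] using this

lemma inorder_spine (S : Finset ℕ) (T : BTree) :
    inorder (rightPath (spine S T).1 (spine S T).2) = inorder T := by
  induction T with
  | nil => simp [spine, rightPath]
  | node l x r ihl ihr =>
    rw [spine]
    split_ifs with hx
    · simp only
      rw [rightPath_append, inorder_rightPath]
      simp only [rightPath, inorder]
      rw [ihr, ← List.append_assoc, ← inorder_rightPath, ihl]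
    · simp [rightPath]

lemma inorder_flarb (S : Finset ℕ) (n : ℕ) (T : BTree) :
    inorder (flarb S n T) = inorder T ++ [n] := by
  rw [flarb, inorder_spine]
  simp [inorder]

lemma Run.inorder_eq {n : ℕ} {T : BTree} {c : ℕ} (h : Run n T c) : inorder T = List.range n := by
  induction h with
  | zero => rfl
  | step S h h1 h2 h3 ih => rw [inorder_flarb, ih, List.range_succ]

lemma Run.mem_labels {n : ℕ} {T : BTree} {c : ℕ} (h : Run n T c) (y : ℕ) :
    y ∈ labels T ↔ y < n := by
  rw [← mem_inorder, h.inorder_eq, List.mem_range]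

/-! ### Paths -/

/-- The rightmost path with nodes `l` on top of `u`. -/
def attach (l : List ℕ) (u : BTree) : BTree := rightPath (l.map fun x => (nil, x)) u

@[simp] lemma attach_nil (u : BTree) : attach [] u = u := rfl

@[simp] lemma attach_cons (x : ℕ) (l : List ℕ) (u : BTree) :
    attach (x :: l) u = node nil x (attach l u) := rfl

lemma attach_append (a b : List ℕ) (u : BTree) : attach (a ++ b) u = attach a (attach b u) := by
  rw [attach, List.map_append, rightPath_append]
  rfl

lemma spine_attach (S : Finset ℕ) (l : List ℕ) (u : BTree) (hl : ∀ x ∈ l, x ∈ S) :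
    spine S (attach l u) = (l.map (fun x => (nil, x)) ++ (spine S u).1, (spine S u).2) := by
  induction l with
  | nil => simp
  | cons x l ih =>
    rw [attach_cons, spine, if_pos (hl x (by simp)), ih fun y hy => hl y (by simp [hy])]
    simp [spine]

/-- Flattening. -/
lemma spine_all (S : Finset ℕ) (T : BTree) (h : ∀ x ∈ labels T, x ∈ S) :
    spine S T = ((inorder T).map fun x => (nil, x), nil) := by
  induction T with
  | nil => simp [spine, inorder]
  | node l x r ihl ihr =>
    have hx : x ∈ S := h x (by simp [labels])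
    rw [spine, if_pos hx, ihl fun y hy => h y (by simp [labels, hy]),
      ihr fun y hy => h y (by simp [labels, hy])]
    simp [inorder]

lemma flarb_all (n : ℕ) (T : BTree) :
    flarb (labels T) n T = attach (inorder T ++ [n]) nil := by
  rw [flarb, spine_all]
  · simp [inorder, attach]
  · intro x hx
    simp only [labels, Finset.mem_insert, Finset.mem_union] at hx ⊢
    rcases hx with h | h | h
    · exact Or.inl h
    · exact Or.inr h
    · simp at h

lemma conn_labels (S : Finset ℕ) (T : BTree) (h : ∀ x ∈ labels T, x ∈ S) : Conn S T := by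
  induction T with
  | nil => trivial
  | node l x r ihl ihr =>
    exact Or.inl ⟨h x (by simp [labels]), ihl fun y hy => h y (by simp [labels, hy]),
      ihr fun y hy => h y (by simp [labels, hy])⟩

lemma Run.flatten {n : ℕ} {T : BTree} {c : ℕ} (h : Run n T c) :
    ∃ c', c ≤ c' ∧ Run (n + 1) (attach (List.range (n + 1)) nil) c' := by
  have h1 := Run.step (labels T) h subset_rfl (root_subset T) (conn_labels _ _ fun x hx => hx)
  rw [flarb_all, h.inorder_eq, ← List.range_succ] at h1
  exact ⟨_, Nat.le_add_right _ _, h1⟩

lemma conn_attach (S : Finset ℕ) (l : List ℕ) (u : BTree) (hl : ∀ x ∈ l, x ∈ S)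
    (hu : Conn S u) : Conn S (attach l u) := by
  induction l with
  | nil => exact hu
  | cons x l ih => exact Or.inl ⟨hl x (by simp), trivial, ih fun y hy => hl y (by simp [hy])⟩

lemma labels_attach (l : List ℕ) (u : BTree) : labels (attach l u) = l.toFinset ∪ labels u := by
  induction l with
  | nil => simp
  | cons x l ih => simp [labels, ih]

lemma ptr_attach {l : List ℕ} {u : BTree} {p c : ℕ} {b : Bool}
    (h : (p, b, c) ∈ ptr (attach l u)) : p ∈ l ∨ (p, b, c) ∈ ptr u := by
  induction l with
  | nil => exact Or.inr h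
  | cons x l ih =>
    rw [attach_cons, mem_ptr_node] at h
    rcases h with ⟨rfl, -, -⟩ | ⟨rfl, -, -⟩ | h | h
    · simp
    · simp
    · simp [ptr] at h
    · rcases ih h with h | h
      · simp [h]
      · exact Or.inr h

lemma ptr_subset_attach (l : List ℕ) (u : BTree) : ptr u ⊆ ptr (attach l u) := by
  induction l with
  | nil => exact subset_rfl
  | cons x l ih =>
    intro q hq
    obtain ⟨p, b, c⟩ := q
    rw [attach_cons, mem_ptr_node]
    exact Or.inr (Or.inr (Or.inr (ih hq)))

/-! ### Shifting the labels -/

/-- Add `m` to all labels. -/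
def shift (m : ℕ) : BTree → BTree
  | nil => nil
  | node l x r => node (shift m l) (x + m) (shift m r)

/-- Shift a list of trees with labels. -/
def shiftL (m : ℕ) (a : List (BTree × ℕ)) : List (BTree × ℕ) :=
  a.map fun q => (shift m q.1, q.2 + m)

lemma shift_rightPath (m : ℕ) (a : List (BTree × ℕ)) (u : BTree) :
    shift m (rightPath a u) = rightPath (shiftL m a) (shift m u) := by
  induction a with
  | nil => rfl
  | cons q a ih => obtain ⟨t, x⟩ := q; simp [rightPath, shift, shiftL, ih]

lemma mem_labels_shift {m y : ℕ} {T : BTree} :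
    y ∈ labels (shift m T) ↔ ∃ x ∈ labels T, y = x + m := by
  induction T with
  | nil => simp [shift, labels]
  | node l x r ihl ihr =>
    simp only [shift, labels, Finset.mem_insert, Finset.mem_union, ihl, ihr]
    constructor
    · rintro (rfl | ⟨z, hz, rfl⟩ | ⟨z, hz, rfl⟩)
      · exact ⟨x, Or.inl rfl, rfl⟩
      · exact ⟨z, Or.inr (Or.inl hz), rfl⟩
      · exact ⟨z, Or.inr (Or.inr hz), rfl⟩
    · rintro ⟨z, rfl | hz | hz, rfl⟩
      · exact Or.inl rfl
      · exact Or.inr (Or.inl ⟨z, hz, rfl⟩)
      · exact Or.inr (Or.inr ⟨z, hz, rfl⟩)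

lemma mem_root_shift {m y : ℕ} {T : BTree} :
    y ∈ root (shift m T) ↔ ∃ x ∈ root T, y = x + m := by
  cases T <;> simp [shift, root]

lemma mem_ptr_shift {m p c : ℕ} {b : Bool} {T : BTree} :
    (p, b, c) ∈ ptr (shift m T) ↔ ∃ p' c', (p', b, c') ∈ ptr T ∧ p = p' + m ∧ c = c' + m := by
  induction T with
  | nil => simp [shift, ptr]
  | node l x r ihl ihr =>
    rw [shift, mem_ptr_node, ihl, ihr]
    constructor
    · rintro (⟨rfl, hb, h⟩ | ⟨rfl, hb, h⟩ | ⟨p', c', h, rfl, rfl⟩ | ⟨p', c', h, rfl, rfl⟩)
      · obtain ⟨z, hz, rfl⟩ := mem_root_shift.1 h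
        exact ⟨x, z, mem_ptr_node.2 (Or.inl ⟨rfl, hb, hz⟩), rfl, rfl⟩
      · obtain ⟨z, hz, rfl⟩ := mem_root_shift.1 h
        exact ⟨x, z, mem_ptr_node.2 (Or.inr (Or.inl ⟨rfl, hb, hz⟩)), rfl, rfl⟩
      · exact ⟨p', c', mem_ptr_node.2 (Or.inr (Or.inr (Or.inl h))), rfl, rfl⟩
      · exact ⟨p', c', mem_ptr_node.2 (Or.inr (Or.inr (Or.inr h))), rfl, rfl⟩
    · rintro ⟨p', c', h, rfl, rfl⟩
      rw [mem_ptr_node] at h
      rcases h with ⟨rfl, hb, h⟩ | ⟨rfl, hb, h⟩ | h | h
      · exact Or.inl ⟨rfl, hb, mem_root_shift.2 ⟨_, h, rfl⟩⟩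
      · exact Or.inr (Or.inl ⟨rfl, hb, mem_root_shift.2 ⟨_, h, rfl⟩⟩)
      · exact Or.inr (Or.inr (Or.inl ⟨p', c', h, rfl, rfl⟩))
      · exact Or.inr (Or.inr (Or.inr ⟨p', c', h, rfl, rfl⟩))

lemma spine_shift (m : ℕ) (S1 S2 : Finset ℕ) (T : BTree)
    (h : ∀ y ∈ labels T, (y + m ∈ S1 ↔ y ∈ S2)) :
    spine S1 (shift m T) = (shiftL m (spine S2 T).1, shift m (spine S2 T).2) := by
  induction T with
  | nil => rfl
  | node l x r ihl ihr =>
    have hx := h x (by simp [labels])
    have hl := ihl fun y hy => h y (by simp [labels, hy])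
    have hr := ihr fun y hy => h y (by simp [labels, hy])
    rw [shift, spine, spine]
    by_cases hx2 : x ∈ S2
    · rw [if_pos hx2, if_pos (hx.2 hx2), hl, hr]
      simp [shiftL]
    · rw [if_neg hx2, if_neg (fun h' => hx2 (hx.1 h'))]
      simp [shiftL, shift]

lemma conn_shift (m : ℕ) (S1 S2 : Finset ℕ) (T : BTree)
    (h : ∀ y ∈ labels T, (y + m ∈ S1 ↔ y ∈ S2)) (hT : Conn S2 T) : Conn S1 (shift m T) := by
  induction T with
  | nil => trivial
  | node l x r ihl ihr =>
    rcases hT with ⟨hx, hl, hr⟩ | hT
    · exact Or.inl ⟨(h x (by simp [labels])).2 hx, ihl (fun y hy => h y (by simp [labels, hy])) hl,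
        ihr (fun y hy => h y (by simp [labels, hy])) hr⟩
    · right
      intro y hy
      obtain ⟨z, hz, rfl⟩ := mem_labels_shift.1 (show y ∈ labels (shift m (node l x r)) from hy)
      rw [h z hz]
      exact hT z hz

/-! ### The second half of the strategy -/

/-- The tree after `k` further steps, when the repeated strategy has reached `node nil 0 R`. -/
def act (m k : ℕ) (R : BTree) : BTree :=
  attach (List.range k) (node (attach (List.range' k (m - k)) nil) m (shift m R))

/-- The result of the flarb of `node nil 0 R`. -/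
def next (S : Finset ℕ) (k : ℕ) (R : BTree) : BTree :=
  rightPath ((spine (insert k S) R).1 ++ [((spine (insert k S) R).2, k)]) nil

lemma flarb_sim (S : Finset ℕ) (k : ℕ) (R : BTree) (h0 : 0 ∈ S) :
    flarb S k (node nil 0 R) = node nil 0 (next S k R) := by
  have h1 : (0 : ℕ) ∈ insert k S := by simp [h0]
  have h2 : k ∈ insert k S := by simp
  rw [flarb, next]
  simp only [spine, if_pos h1, if_pos h2]
  simp [rightPath]

/-- The set of the nodes used in the second half. -/
def actS (m k : ℕ) (S : Finset ℕ) : Finset ℕ := Finset.range (k + 1) ∪ S.image (· + m)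

lemma mem_actS {m k y : ℕ} {S : Finset ℕ} :
    y ∈ actS m k S ↔ y ≤ k ∨ ∃ x ∈ S, y = x + m := by
  simp only [actS, Finset.mem_union, Finset.mem_range, Nat.lt_succ_iff, Finset.mem_image]
  constructor
  · rintro (h | ⟨x, hx, rfl⟩)
    · exact Or.inl h
    · exact Or.inr ⟨x, hx, rfl⟩
  · rintro (h | ⟨x, hx, rfl⟩)
    · exact Or.inl h
    · exact Or.inr ⟨x, hx, rfl⟩

lemma range'_split {m k : ℕ} (hkm : k < m) :
    List.range' k (m - k) = k :: List.range' (k + 1) (m - (k + 1)) := by
  obtain ⟨j, rfl⟩ : ∃ j, m = k + 1 + j := ⟨m - (k + 1), by omega⟩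
  rw [show k + 1 + j - k = j + 1 by omega, show k + 1 + j - (k + 1) = j by omega,
    List.range'_succ]

lemma spine_rest {m k : ℕ} (S1 : Finset ℕ) (h : ∀ y, k + 1 ≤ y → y < m → y ∉ S1) :
    spine S1 (attach (List.range' (k + 1) (m - (k + 1))) nil) =
      ([], attach (List.range' (k + 1) (m - (k + 1))) nil) := by
  rcases Nat.lt_or_ge (k + 1) m with hm | hm
  · rw [range'_split hm, attach_cons, spine, if_neg (h (k + 1) le_rfl hm)]
  · rw [show m - (k + 1) = 0 by omega]
    simp [spine]

lemma flarb_act {m k : ℕ} (S : Finset ℕ) (R : BTree) (hkm : k < m) (h0 : 0 ∈ S)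
    (hR : ∀ y ∈ labels R, 1 ≤ y ∧ y < k) :
    flarb (actS m k S) (m + k) (act m k R) = act m (k + 1) (next S k R) := by
  set S1 := insert (m + k) (actS m k S) with hS1
  have hmem : ∀ y, y ∈ S1 ↔ y = m + k ∨ y ≤ k ∨ ∃ x ∈ S, y = x + m := by
    intro y
    rw [hS1, Finset.mem_insert, mem_actS]
  have hmm : m ∈ S1 := (hmem m).2 (Or.inr (Or.inr ⟨0, h0, by simp⟩))
  have hmk : m + k ∈ S1 := (hmem _).2 (Or.inl rfl)
  have hk : k ∈ S1 := (hmem k).2 (Or.inr (Or.inl le_rfl))
  have hrest := spine_rest (m := m) (k := k) S1 (by
    intro y h1 h2 h3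
    rcases (hmem y).1 h3 with h | h | ⟨x, -, h⟩ <;> omega)
  have hRs : spine S1 (shift m R) =
      (shiftL m (spine (insert k S) R).1, shift m (spine (insert k S) R).2) := by
    apply spine_shift
    intro y hy
    rw [hmem, Finset.mem_insert]
    constructor
    · rintro (h | h | ⟨x, hx, h⟩)
      · left; omega
      · have := (hR y hy).1; omega
      · right
        have : y = x := by omega
        rwa [this]
    · rintro (h | h)
      · left; omega
      · right; right; exact ⟨y, h, rfl⟩
  rw [flarb]
  have h1 : spine S1 (node (act m k R) (m + k) nil) =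
      ((List.range k).map (fun x => (nil, x)) ++ (([(nil, k)] ++
        (attach (List.range' (k + 1) (m - (k + 1))) nil, m) ::
          shiftL m (spine (insert k S) R).1) ++ [(shift m (spine (insert k S) R).2, m + k)]),
        nil) := by
    have h2 : spine S1 (attach (List.range' k (m - k)) nil) =
        ([(nil, k)], attach (List.range' (k + 1) (m - (k + 1))) nil) := by
      rw [range'_split hkm, attach_cons, spine, if_pos hk, hrest]
      simp [spine]
    have h3 : spine S1 (node (attach (List.range' k (m - k)) nil) m (shift m R)) =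
        (([(nil, k)] ++ (attach (List.range' (k + 1) (m - (k + 1))) nil, m) ::
          shiftL m (spine (insert k S) R).1), shift m (spine (insert k S) R).2) := by
      rw [spine, if_pos hmm, hRs, h2]
    have h4 : spine S1 (act m k R) = ((List.range k).map (fun x => (nil, x)) ++
        ([(nil, k)] ++ (attach (List.range' (k + 1) (m - (k + 1))) nil, m) ::
          shiftL m (spine (insert k S) R).1), shift m (spine (insert k S) R).2) := by
      rw [act, spine_attach _ _ _ (by
        intro x hx
        rw [List.mem_range] at hx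
        exact (hmem x).2 (Or.inr (Or.inl hx.le))), h3]
    rw [spine, if_pos hmk, h4]
    simp [spine]
  rw [h1]
  simp only
  rw [rightPath_append, act, List.range_succ, attach_append, attach]
  congr 1
  rw [List.append_assoc, rightPath_append, List.cons_append]
  simp only [rightPath, attach_cons, attach_nil]
  congr 1
  congr 1
  rw [next, shift_rightPath]
  simp [shiftL, shift, Nat.add_comm]

lemma destroyed_act {m k : ℕ} (R R2 : BTree) (hkm : k < m) :
    destroyed (node nil 0 R) (node nil 0 R2) + 1 ≤
      destroyed (act m k R) (act m (k + 1) R2) := by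
  classical
  set g : ℕ × Bool × ℕ → ℕ × Bool × ℕ := fun q => (q.1 + m, q.2.1, q.2.2 + m) with hg
  have hginj : Function.Injective g := by
    rintro ⟨a, b, c⟩ ⟨a', b', c'⟩ h
    simp only [hg, Prod.mk.injEq, Nat.add_right_cancel_iff] at h
    simp [h]
  set D := (ptr (node nil 0 R)) \ (ptr (node nil 0 R2)) with hD
  have hnot : (m, false, k) ∉ D.image g := by
    intro h
    obtain ⟨⟨a, b, c⟩, -, h⟩ := Finset.mem_image.1 h
    simp only [hg, Prod.mk.injEq] at h
    omega
  have hsub : insert (m, false, k) (D.image g) ⊆ (act m k R).ptr \ (act m (k + 1) R2).ptr := by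
    -- relationships of the shifted tree
    have key : ∀ (k' : ℕ) (R' : BTree) (p c : ℕ) (b : Bool), k' ≤ m → m ≤ p → m ≤ c →
        (p, b, c) ∈ (act m k' R').ptr → ∃ p' c', (p', b, c') ∈ ptr (node nil 0 R') ∧
          p = p' + m ∧ c = c' + m := by
      intro k' R' p c b hk' hp hc hq0
      rcases ptr_attach hq0 with hq1 | hq1
      · rw [List.mem_range] at hq1
        omega
      · rw [mem_ptr_node] at hq1
        rcases hq1 with ⟨-, -, hq2⟩ | ⟨hq3, hq4, hq2⟩ | hq2 | hq2
        · have h1 := root_subset _ hq2
          rw [labels_attach] at h1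
          simp only [labels, Finset.union_empty, List.mem_toFinset, List.mem_range'_1] at h1
          omega
        · obtain ⟨z, hz, hz'⟩ := mem_root_shift.1 hq2
          exact ⟨0, z, mem_ptr_node.2 (Or.inr (Or.inl ⟨rfl, hq4, hz⟩)), by omega, hz'⟩
        · have h1 := (ptr_labels hq2).2
          rw [labels_attach] at h1
          simp only [labels, Finset.union_empty, List.mem_toFinset, List.mem_range'_1] at h1
          omega
        · obtain ⟨p', c', hq5, hp5, hc5⟩ := mem_ptr_shift.1 hq2
          exact ⟨p', c', mem_ptr_node.2 (Or.inr (Or.inr (Or.inr hq5))), hp5, hc5⟩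
    intro q hq
    rw [Finset.mem_insert] at hq
    rw [Finset.mem_sdiff]
    rcases hq with rfl | hq
    · constructor
      · apply ptr_subset_attach
        rw [mem_ptr_node, range'_split hkm]
        exact Or.inl ⟨rfl, rfl, by simp [root]⟩
      · intro hq0
        rcases ptr_attach hq0 with hq1 | hq1
        · rw [List.mem_range] at hq1
          omega
        · rw [mem_ptr_node] at hq1
          rcases hq1 with ⟨-, -, hq2⟩ | ⟨-, hq2, -⟩ | hq2 | hq2
          · have h1 := root_subset _ hq2
            rw [labels_attach] at h1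
            simp only [labels, Finset.union_empty, List.mem_toFinset, List.mem_range'_1] at h1
            omega
          · simp at hq2
          · have h1 := (ptr_labels hq2).1
            rw [labels_attach] at h1
            simp only [labels, Finset.union_empty, List.mem_toFinset, List.mem_range'_1] at h1
            omega
          · obtain ⟨p', c', -, -, hq5⟩ := mem_ptr_shift.1 hq2
            omega
    · obtain ⟨⟨p, b, c⟩, hpc, rfl⟩ := Finset.mem_image.1 hq
      rw [hD, Finset.mem_sdiff] at hpc
      simp only [hg]
      constructor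
      · apply ptr_subset_attach
        have hq0 := hpc.1
        rw [mem_ptr_node] at hq0 ⊢
        rcases hq0 with ⟨-, -, hq2⟩ | ⟨hq3, hq4, hq2⟩ | hq2 | hq2
        · simp [root] at hq2
        · exact Or.inr (Or.inl ⟨by omega, hq4, mem_root_shift.2 ⟨c, hq2, rfl⟩⟩)
        · simp [ptr] at hq2
        · exact Or.inr (Or.inr (Or.inr (mem_ptr_shift.2 ⟨p, c, hq2, rfl, rfl⟩)))
      · intro hq0
        obtain ⟨p', c', h', h1, h2⟩ := key (k + 1) R2 _ _ _ (by omega) (by omega) (by omega) hq0
        have e1 : p = p' := by omega
        have e2 : c = c' := by omega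
        rw [e1, e2] at hpc
        exact hpc.2 h'
  have hcard := Finset.card_le_card hsub
  rw [Finset.card_insert_of_notMem hnot, Finset.card_image_of_injective _ hginj] at hcard
  exact hcard

lemma act_conn {m k : ℕ} (S : Finset ℕ) (R : BTree) (hkm : k < m) (h0 : 0 ∈ S)
    (hR : ∀ y ∈ labels R, 1 ≤ y ∧ y < k) (hc : Conn S R) :
    Conn (actS m k S) (act m k R) := by
  apply conn_attach
  · intro x hx
    rw [List.mem_range] at hx
    exact mem_actS.2 (Or.inl hx.le)
  · left
    refine ⟨mem_actS.2 (Or.inr ⟨0, h0, by simp⟩), ?_, ?_⟩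
    · rw [range'_split hkm, attach_cons]
      left
      refine ⟨mem_actS.2 (Or.inl le_rfl), trivial, ?_⟩
      rcases Nat.lt_or_ge (k + 1) m with hm | hm
      · rw [range'_split hm, attach_cons]
        right
        intro y hy
        rw [← attach_cons, ← range'_split hm, labels_attach] at hy
        simp only [labels, Finset.union_empty, List.mem_toFinset, List.mem_range'_1] at hy
        rw [mem_actS]
        rintro (h | ⟨x, -, h⟩) <;> omega
      · rw [show m - (k + 1) = 0 by omega]
        trivial
    · apply conn_shift m _ S _ _ hc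
      intro y hy
      have := hR y hy
      rw [mem_actS]
      constructor
      · rintro (h | ⟨x, hx, h⟩)
        · omega
        · have : y = x := by omega
          rwa [this]
      · intro h
        exact Or.inr ⟨y, h, rfl⟩

lemma act_labels {m k : ℕ} (S : Finset ℕ) (R : BTree) (hkm : k < m)
    (hS : S ⊆ labels (node nil 0 R)) : actS m k S ⊆ labels (act m k R) := by
  intro y hy
  rw [act, labels_attach, Finset.mem_union, List.mem_toFinset, List.mem_range]
  rcases mem_actS.1 hy with h | ⟨x, hx, rfl⟩
  · rcases h.lt_or_eq with h | rfl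
    · exact Or.inl h
    · right
      simp only [labels, Finset.mem_insert, Finset.mem_union, labels_attach]
      right; left; left
      rw [List.mem_toFinset, List.mem_range'_1]
      omega
  · right
    have h1 := hS hx
    simp only [labels, Finset.mem_insert, Finset.mem_union, Finset.empty_union] at h1 ⊢
    rcases h1 with rfl | h1
    · left; simp
    · right; right
      exact mem_labels_shift.2 ⟨x, h1, rfl⟩

lemma second_half {m c1 : ℕ} (hm : 1 ≤ m) (hbase : Run m (attach (List.range m) nil) c1)
    {k : ℕ} {U : BTree} {d : ℕ} (h : Run k U d) :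
    (k = 0 ∧ d = 0 ∧ U = nil) ∨ (1 ≤ k ∧ ∃ R, U = node nil 0 R ∧ (∀ y ∈ labels R, 1 ≤ y ∧ y < k) ∧
      (k ≤ m → ∃ c', c1 + d + (k - 1) ≤ c' ∧ Run (m + k) (act m k R) c')) := by
  induction h with
  | zero => exact Or.inl ⟨rfl, rfl, rfl⟩
  | @step k U d S h h1 h2 h3 ih =>
    right
    refine ⟨by omega, ?_⟩
    rcases ih with ⟨rfl, rfl, rfl⟩ | ⟨hk, R, rfl, hR, hrun⟩
    · -- the first step
      have hS : S = ∅ := by simpa [labels] using h1
      subst hS
      refine ⟨nil, ?_, by simp [labels], fun _ => ?_⟩
      · simp [flarb, spine, rightPath]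
      · have e1 : attach (List.range m) nil =
            node nil 0 (attach (List.range' 1 (m - 1)) nil) := by
          rw [List.range_eq_range', ← Nat.sub_zero m, range'_split hm]
          simp
        have hstep := Run.step {0} hbase (by
          rw [labels_attach]
          intro y hy
          rw [Finset.mem_singleton] at hy
          subst hy
          simp; omega) (by rw [e1]; simp [root]) (by
          rw [e1]
          left
          refine ⟨by simp, trivial, ?_⟩
          rcases Nat.lt_or_ge 1 m with hm1 | hm1
          · have e2 := range'_split hm1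
            rw [e2, attach_cons]
            right
            intro y hy
            rw [← attach_cons, ← e2, labels_attach] at hy
            simp only [labels, Finset.union_empty, List.mem_toFinset, List.mem_range'_1] at hy
            rw [Finset.mem_singleton]
            omega
          · rw [show m - 1 = 0 by omega]
            trivial)
        have e3 : flarb {0} m (attach (List.range m) nil) = act m 1 nil := by
          have hrest := spine_rest (m := m) (k := 0) (insert m {0}) (by
            intro y h1 h2 h3
            rw [Finset.mem_insert, Finset.mem_singleton] at h3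
            omega)
          simp only [Nat.zero_add] at hrest
          have e4 : spine (insert m {0}) (node nil 0 (attach (List.range' 1 (m - 1)) nil)) =
              ([(nil, 0)], attach (List.range' 1 (m - 1)) nil) := by
            rw [spine, if_pos (by simp), hrest]
            simp [spine]
          have e5 : spine (insert m {0})
              (node (node nil 0 (attach (List.range' 1 (m - 1)) nil)) m nil) =
              ([(nil, 0), (attach (List.range' 1 (m - 1)) nil, m)], nil) := by
            rw [spine, if_pos (by simp), e4]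
            simp [spine]
          rw [flarb, e1, e5]
          simp [act, rightPath, attach, shift]
        rw [e3] at hstep
        refine ⟨_, ?_, hstep⟩
        have : destroyed nil (flarb ∅ 0 nil) = 0 := by simp [destroyed, ptr]
        rw [this]
        omega
    · have h0 : 0 ∈ S := h2 (by simp [root])
      have hcR : Conn S R := by
        rcases h3 with ⟨-, -, h3⟩ | h3
        · exact h3
        · exact absurd h0 (h3 0 (by simp [labels]))
      have hflarb := flarb_sim S k R h0
      have hnl : ∀ y ∈ labels (next S k R), 1 ≤ y ∧ y < k + 1 := by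
        have hr := (Run.step S h h1 h2 h3)
        have hio := hr.inorder_eq
        rw [hflarb, inorder] at hio
        simp only [inorder, List.nil_append] at hio
        have : inorder (next S k R) = List.range' 1 k := by
          rw [List.range_eq_range', List.range'_succ] at hio
          exact (List.cons.inj hio).2
        intro y hy
        rw [← mem_inorder, this, List.mem_range'_1] at hy
        omega
      refine ⟨next S k R, hflarb, hnl, fun hkm => ?_⟩
      obtain ⟨c', hc', hrun'⟩ := hrun (by omega)
      have hkm' : k < m := by omega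
      have hstep := Run.step (actS m k S) hrun' (act_labels S R hkm' h1) (by
        intro y hy
        obtain ⟨j, rfl⟩ : ∃ j, k = j + 1 := ⟨k - 1, by omega⟩
        rw [act, List.range_succ_eq_map, attach_cons] at hy
        simp only [root, Finset.mem_singleton] at hy
        subst hy
        exact mem_actS.2 (Or.inl (by omega))) (act_conn S R hkm' h0 hR hcR)
      rw [flarb_act S R hkm' h0 hR] at hstep
      refine ⟨_, ?_, hstep⟩
      rw [hflarb]
      have := destroyed_act (m := m) (k := k) R (next S k R) hkm'
      omega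

/-- The recursion. -/
lemma double {n : ℕ} {T : BTree} {c : ℕ} (hn : 1 ≤ n) (h : Run n T c) :
    ∃ T' c', 2 * c + (n - 1) ≤ c' ∧ Run (2 * n + 1) T' c' := by
  obtain ⟨c1, hc1, hbase⟩ := h.flatten
  rcases second_half (by omega) hbase h with ⟨h0, -, -⟩ | ⟨-, R, -, -, hrun⟩
  · omega
  · obtain ⟨c', hc', hr⟩ := hrun (by omega)
    refine ⟨act (n + 1) n R, c', by omega, ?_⟩
    rw [show 2 * n + 1 = n + 1 + n by omega]
    exact hr

lemma exists_run (k : ℕ) : ∃ T c, k * 2 ^ k + 2 ≤ c + 2 * 2 ^ k ∧ Run (2 ^ (k + 1) - 1) T c := by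
  induction k with
  | zero =>
    obtain ⟨c, -, h⟩ := Run.zero.flatten
    exact ⟨_, c, by omega, h⟩
  | succ k ih =>
    obtain ⟨T, c, hc, h⟩ := ih
    have hp : 1 ≤ 2 ^ k := Nat.one_le_two_pow
    have hp1 : 2 ^ (k + 1) = 2 * 2 ^ k := by ring
    have hp2 : 2 ^ (k + 1 + 1) = 4 * 2 ^ k := by ring
    obtain ⟨T', c', hc', h'⟩ := double (by omega) h
    refine ⟨T', c', ?_, ?_⟩
    · rw [hp1] at hc' ⊢
      have : (k + 1) * (2 * 2 ^ k) = 2 * (k * 2 ^ k) + 2 * 2 ^ k := by ring
      rw [this]
      omega
    · rw [show 2 ^ (k + 1 + 1) - 1 = 2 * (2 ^ (k + 1) - 1) + 1 by omega]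
      exact h'

lemma Run.extend {n : ℕ} {T : BTree} {c : ℕ} (h : Run n T c) {N : ℕ} (hN : n ≤ N) :
    ∃ T' c', c ≤ c' ∧ Run N T' c' := by
  induction N, hN using Nat.le_induction with
  | base => exact ⟨T, c, le_rfl, h⟩
  | succ N hN ih =>
    obtain ⟨T', c', hc', h'⟩ := ih
    obtain ⟨c'', hc'', h''⟩ := h'.flatten
    exact ⟨_, c'', hc'.trans hc'', h''⟩

end BTree

open BTree

/-- For every `n` there is a sequence of `n` flarbs, starting from the empty tree, which destroys
at least `(n + 1) (log₂ (n + 1) - 3) / 4` parent/child relationships (`Nat.log 2` is the integer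
part of the binary logarithm). Hence there is no constant `C` such that all sequences of `n` flarbs
need at most `C n` pointer changes. -/
theorem result :
    (∀ n : ℕ, ∃ T : ℕ → BTree, IsFlarbSequence n T ∧
      (n + 1) * Nat.log 2 (n + 1) ≤
        4 * ∑ i ∈ Finset.range n, destroyed (T i) (T (i + 1)) + 3 * (n + 1)) ∧
    ∀ C : ℕ, ∃ (n : ℕ) (T : ℕ → BTree), IsFlarbSequence n T ∧
      C * n < ∑ i ∈ Finset.range n, destroyed (T i) (T (i + 1)) := by
  have main : ∀ n : ℕ, ∃ T : ℕ → BTree, IsFlarbSequence n T ∧
      (n + 1) * Nat.log 2 (n + 1) ≤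
        4 * ∑ i ∈ Finset.range n, destroyed (T i) (T (i + 1)) + 3 * (n + 1) := by
    intro n
    rcases Nat.eq_zero_or_pos n with rfl | hn
    · exact ⟨fun _ => nil, ⟨rfl, fun i hi => absurd hi (by omega)⟩, by simp⟩
    · obtain ⟨k, hk⟩ : ∃ k, Nat.log 2 (n + 1) = k + 1 :=
        ⟨Nat.log 2 (n + 1) - 1, by
          have : 1 ≤ Nat.log 2 (n + 1) := by
            apply Nat.log_pos (by norm_num)
            omega
          omega⟩
      have h1 : 2 ^ (k + 1) ≤ n + 1 := by
        rw [← hk]
        exact Nat.pow_log_le_self 2 (by omega)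
      have h2 : n + 1 < 2 ^ (k + 1 + 1) := by
        rw [← hk]
        exact Nat.lt_pow_succ_log_self (by norm_num) _
      obtain ⟨T, c, hc, h⟩ := exists_run k
      obtain ⟨T', c', hc', h'⟩ := h.extend (N := n) (by omega)
      obtain ⟨f, hf, -, hfc⟩ := h'.exists_sequence
      refine ⟨f, hf, ?_⟩
      rw [hfc, hk]
      have hp2 : 2 ^ (k + 1 + 1) = 4 * 2 ^ k := by ring
      rw [hp2] at h2
      rcases Nat.lt_or_ge k 2 with hk2 | hk2
      · have : (n + 1) * (k + 1) ≤ (n + 1) * 3 := Nat.mul_le_mul_left _ (by omega)
        omega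
      · obtain ⟨j, rfl⟩ : ∃ j, k = j + 2 := ⟨k - 2, by omega⟩
        have e1 : (j + 2) * 2 ^ (j + 2) = j * 2 ^ (j + 2) + 2 * 2 ^ (j + 2) := by ring
        rw [e1] at hc
        have e2 : j * 2 ^ (j + 2) ≤ c := by omega
        have e3 : (n + 1) * (j + 2 + 1) = (n + 1) * j + 3 * (n + 1) := by ring
        have e4 : (n + 1) * j ≤ 4 * 2 ^ (j + 2) * j := Nat.mul_le_mul_right _ h2.le
        have e5 : 4 * 2 ^ (j + 2) * j = 4 * (j * 2 ^ (j + 2)) := by ring
        rw [e3]
        omega
  refine ⟨main, fun C => ?_⟩
  obtain ⟨T, hT, h⟩ := main (2 ^ (4 * C + 4) - 1)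
  refine ⟨_, T, hT, ?_⟩
  have hp : 1 ≤ 2 ^ (4 * C + 4) := Nat.one_le_two_pow
  rw [Nat.sub_add_cancel hp, Nat.log_pow (by norm_num)] at h
  have e1 : 2 ^ (4 * C + 4) * (4 * C + 4) =
      4 * (C * 2 ^ (4 * C + 4)) + 4 * 2 ^ (4 * C + 4) := by ring
  rw [e1] at h
  have e2 : C * (2 ^ (4 * C + 4) - 1) ≤ C * 2 ^ (4 * C + 4) :=
    Nat.mul_le_mul_left _ (Nat.sub_le _ _)
  omega

end Pool.Agent.Results.MP_5c307f_lc.LogarithmicFlarbs
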